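import Pool.Agent.Lib.MP_6bc78b_nt.MS.QZ.Iface
import Pool.Agent.Lib.MP_6bc78b_nt.MS.P1.LSER
import Pool.Agent.Lib.MP_6bc78b_nt.MS.P5.H59.MomkAux

/-! Project MS, Part QZ, module PID: the Dirichlet polynomials as products. -/

set_option autoImplicit false

open Complex Filter Topology MeasureTheory ArithmeticFunction

namespace Pool.Agent.Lib.MP_6bc78b_nt.MS.QZ.H59

open Pool.Agent.Lib.MP_6bc78b_nt.MS Pool.Agent.Lib.MP_6bc78b_nt.MS.P1
open Pool.Agent.Lib.MP_6bc78b_nt.MS.QZ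
open Pool.Agent.Lib.MP_6bc78b_nt.MS.P5.H59 (LS_fin ASum_fin pow_data pow_supp one_supp)

/-- `f` is supported on the numbers up to `N`. -/
def Su (f : ArithmeticFunction ℝ) (N : ℕ) : Prop := ∀ n, N < n → f n = 0

lemma pS_apply (S : Finset ℕ) (n : ℕ) : pS S n = if n ∈ S ∧ n.Prime then 1 else 0 := rfl

lemma ac_apply (α : ℝ) (S : Finset ℕ) (K n : ℕ) : ac α S K n =
    ∑ j ∈ Finset.range (K + 1), α ^ j / (j.factorial : ℝ) * (pS S ^ j) n := rfl

lemma pS_supp (S : Finset ℕ) (n : ℕ) (h : pS S n ≠ 0) : (n : ℝ) ≤ ((S.sup id : ℕ) : ℝ) := by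
  rw [pS_apply] at h
  have h1 : n ∈ S := by
    by_contra h2
    exact h (if_neg (fun h3 => h2 h3.1))
  exact_mod_cast Finset.le_sup (f := id) h1

lemma pS_pow_su (S : Finset ℕ) (j N : ℕ) (hN : (S.sup id) ^ j ≤ N) : Su (pS S ^ j) N := by
  intro n hn
  by_contra h
  have h1 := pow_supp (pS S) ((S.sup id : ℕ) : ℝ) (Nat.cast_nonneg _) (pS_supp S) j n h
  have h2 : n ≤ (S.sup id) ^ j := by exact_mod_cast h1
  omega

/-- A common bound for the supports of the powers up to `K`. -/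
lemma exists_su (S : Finset ℕ) (K : ℕ) : ∃ N : ℕ, ∀ j, j ≤ K → Su (pS S ^ j) N := by
  refine ⟨∑ j ∈ Finset.range (K + 1), (S.sup id) ^ j, fun j hj => pS_pow_su S j _ ?_⟩
  exact Finset.single_le_sum (f := fun j => (S.sup id) ^ j) (fun _ _ => Nat.zero_le _)
    (Finset.mem_range.2 (by omega))

lemma LS_pS (S : Finset ℕ) (hS : IsPr S) (s : ℂ) : LS (pS S) s = PS S s := by
  rw [LS_fin (pS S) (S.sup id) ?_ s]
  · unfold PS
    have h1 : S ⊆ Finset.Icc 1 (S.sup id) := by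
      intro p hp
      rw [Finset.mem_Icc]
      exact ⟨(hS p hp).one_le, Finset.le_sup (f := id) hp⟩
    rw [← Finset.sum_subset h1]
    · refine Finset.sum_congr rfl (fun p hp => ?_)
      rw [pS_apply, if_pos ⟨hp, hS p hp⟩]
      simp
    · intro n _ hn
      rw [pS_apply, if_neg (fun h => hn h.1)]
      simp
  · intro n hn
    by_contra h
    have h1 := pS_supp S n h
    have h2 : n ≤ S.sup id := by exact_mod_cast h1
    omega

lemma pS_asum (S : Finset ℕ) (c : ℝ) : ASum c (pS S) := by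
  obtain ⟨N, hN⟩ := exists_su S 1
  have := hN 1 le_rfl
  rw [pow_one] at this
  exact ASum_fin _ N this c

lemma ac_su (α : ℝ) (S : Finset ℕ) (K N : ℕ) (hN : ∀ j, j ≤ K → Su (pS S ^ j) N) :
    Su (ac α S K) N := by
  intro n hn
  rw [ac_apply]
  apply Finset.sum_eq_zero
  intro j hj
  rw [hN j (by rw [Finset.mem_range] at hj; omega) n hn, mul_zero]

lemma ac_asum (α : ℝ) (S : Finset ℕ) (K : ℕ) (c : ℝ) : ASum c (ac α S K) := by
  obtain ⟨N, hN⟩ := exists_su S K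
  exact ASum_fin _ N (ac_su α S K N hN) c

lemma LS_ac (hLS : LSerStatement) (α : ℝ) (S : Finset ℕ) (hS : IsPr S) (K : ℕ) (s : ℂ) :
    LS (ac α S K) s = te K (α * PS S s) := by
  obtain ⟨N, hN⟩ := exists_su S K
  rw [LS_fin _ N (ac_su α S K N hN) s]
  unfold te
  have h1 : ∀ j ∈ Finset.range (K + 1), ((α : ℂ) * PS S s) ^ j / (j.factorial : ℂ) =
      ∑ n ∈ Finset.Icc 1 N, ((α ^ j / (j.factorial : ℝ) * (pS S ^ j) n : ℝ) : ℂ) *
        (n : ℂ) ^ (-s) := by
    intro j hj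
    rw [Finset.mem_range] at hj
    obtain ⟨-, -, h3⟩ := pow_data hLS s.re (pS S) (pS_asum S s.re) j
    rw [mul_pow, ← LS_pS S hS s, ← h3 s rfl, LS_fin _ N (hN j (by omega)) s, Finset.mul_sum,
      Finset.sum_div]
    refine Finset.sum_congr rfl (fun n _ => ?_)
    push_cast
    ring
  rw [Finset.sum_congr rfl h1, Finset.sum_comm]
  refine Finset.sum_congr rfl (fun n _ => ?_)
  rw [ac_apply, Complex.ofReal_sum, Finset.sum_mul]

lemma prod_data (hLS : LSerStatement) (c : ℝ) (f : ℕ → ArithmeticFunction ℝ)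
    (hf : ∀ i, ASum c (f i)) (j : ℕ) : ASum c (∏ i ∈ Finset.range j, f i) ∧
      ∀ s : ℂ, s.re = c → LS (∏ i ∈ Finset.range j, f i) s = ∏ i ∈ Finset.range j, LS (f i) s := by
  induction j with
  | zero =>
    simp only [Finset.range_zero, Finset.prod_empty]
    refine ⟨ASum_fin 1 1 one_supp c, fun s _ => ?_⟩
    rw [LS_fin 1 1 one_supp s]
    simp
  | succ j ih =>
    obtain ⟨h1, h2⟩ := ih
    obtain ⟨h3, -, h4⟩ := hLS.2.2.2.2.1 c (∏ i ∈ Finset.range j, f i) (f j) h1 (hf j)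
    rw [Finset.prod_range_succ]
    refine ⟨h3, fun s hs => ?_⟩
    rw [Finset.prod_range_succ, h4 s hs, h2 s hs]

lemma dpoly_eq (f : ArithmeticFunction ℝ) (x : ℝ) (h : ∀ n : ℕ, f n ≠ 0 → (n : ℝ) ≤ x) (s : ℂ) :
    dpoly f x s = LS f s := by
  rw [LS_fin f ⌊x⌋₊ ?_ s]
  · rfl
  · intro n hn
    by_contra h1
    exact absurd (Nat.le_floor (h n h1)) (by omega)

lemma isPr_SS (T : ℝ) (j : ℕ) : IsPr (SS T j) := by
  intro p hp
  cases j with
  | zero =>
    unfold SS prs at hp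
    exact (Finset.mem_filter.1 hp).2.1
  | succ j =>
    unfold SS prs at hp
    exact (Finset.mem_filter.1 hp).2.1

/-- PID. -/
theorem pid (h1 : CfbStatement) : PidStatement := by
  intro th c1 c2 hth0 hth
  have hLS : LSerStatement := LSER.lser
  obtain ⟨T0, hT03, hT0⟩ := h1 th c1 c2 hth0 hth
  refine ⟨T0, hT03, ?_⟩
  intro T hT α j hα hj s
  have hT1 : 1 < T := by linarith
  have hC := hT0 T hT α j hα hj
  have hpS := pow_data hLS s.re (pS (SS T j)) (pS_asum _ _) (rj T j)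
  have hprod := prod_data hLS s.re (fun i => ac α (SS T i) (KJ T i)) (fun i => ac_asum _ _ _ _) j
  have hg := hLS.2.2.2.2.1 s.re _ _ hprod.1 hpS.1
  have hgLS : LS (gA α T j (rj T j)) s =
      (∏ i ∈ Finset.range j, te (KJ T i) (α * PS (SS T i) s)) * PS (SS T j) s ^ rj T j := by
    unfold gA
    rw [hg.2.2 s rfl, hprod.2 s rfl, hpS.2.2 s rfl, LS_pS _ (isPr_SS T j)]
    congr 1
    exact Finset.prod_congr rfl (fun i _ => LS_ac hLS α _ (isPr_SS T i) _ s)
  have hbet := hLS.2.2.2.2.2.1 th c1 c2 T s.re hth0 hT1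
  have hgA : ASum s.re (gA α T j (rj T j)) := hg.1
  have hbg := hLS.2.2.2.2.1 s.re _ _ hbet.1 hgA
  refine ⟨?_, ?_⟩
  · rw [dpoly_eq _ _ (fun n => (hC n).1.2), hbg.2.2 s rfl, hbet.2 s, hgLS]
    ring
  · rw [dpoly_eq _ _ (fun n => (hC n).2.2), hgLS]

end Pool.Agent.Lib.MP_6bc78b_nt.MS.QZ.H59
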