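import Pool.Agent.Lib.MP_6bc78b_nt.MS.QZ.Iface2
import Pool.Agent.Lib.MP_6bc78b_nt.MS.QZ.H59.Pid

/-! Project MS, Part QZ, module PI0: the Dirichlet polynomials, general `r`. -/

set_option autoImplicit false

open Complex Filter Topology MeasureTheory ArithmeticFunction

namespace Pool.Agent.Lib.MP_6bc78b_nt.MS.QZ.H59

open Pool.Agent.Lib.MP_6bc78b_nt.MS Pool.Agent.Lib.MP_6bc78b_nt.MS.P1
open Pool.Agent.Lib.MP_6bc78b_nt.MS.QZ
open Pool.Agent.Lib.MP_6bc78b_nt.MS.P5.H59 (pow_data)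

/-- PI0. -/
theorem pi0 (h1 : Cf0Statement) : Pi0Statement := by
  intro th c1 c2 hth0 hth
  have hLS : LSerStatement := LSER.lser
  obtain ⟨T0, hT03, hT0⟩ := h1 th c1 c2 hth0 hth
  refine ⟨T0, hT03, ?_⟩
  intro T hT α j r hα hj hr s
  have hT1 : 1 < T := by linarith
  have hC := hT0 T hT α j r hα hj hr
  have hpS := pow_data hLS s.re (pS (SS T j)) (pS_asum _ _) r
  have hprod := prod_data hLS s.re (fun i => ac α (SS T i) (KJ T i)) (fun i => ac_asum _ _ _ _) j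
  have hg := hLS.2.2.2.2.1 s.re _ _ hprod.1 hpS.1
  have hgLS : LS (gA α T j r) s =
      (∏ i ∈ Finset.range j, te (KJ T i) (α * PS (SS T i) s)) * PS (SS T j) s ^ r := by
    unfold gA
    rw [hg.2.2 s rfl, hprod.2 s rfl, hpS.2.2 s rfl, LS_pS _ (isPr_SS T j)]
    congr 1
    exact Finset.prod_congr rfl (fun i _ => LS_ac hLS α _ (isPr_SS T i) _ s)
  have hbet := hLS.2.2.2.2.2.1 th c1 c2 T s.re hth0 hT1
  have hgA : ASum s.re (gA α T j r) := hg.1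
  have hbg := hLS.2.2.2.2.1 s.re _ _ hbet.1 hgA
  refine ⟨?_, ?_⟩
  · rw [dpoly_eq _ _ (fun n => (hC n).1.2), hbg.2.2 s rfl, hbet.2 s, hgLS]
    ring
  · rw [dpoly_eq _ _ (fun n => (hC n).2.2), hgLS]

end Pool.Agent.Lib.MP_6bc78b_nt.MS.QZ.H59
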